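import Mathlib

/-!
# Nine vertices spanning 28 edges

For every `n ≥ 4` we construct a `3`-graph with `3 n` vertices and `n ^ 3 + 1` edges in which
every nine vertices span at most `27` edges.

Construction.  Let `B = {0, …, n-1}`, let `P = {(true, j)}` and `Q = {(false, k)}` be two further
sets of size `n`, and let `x = (false, 0)`, `x' = (true, 0)`.  For even `b` put `P_b = P`,
`Q_b = Q`; for odd `b` let `P_b`, `Q_b` be obtained from `P`, `Q` by interchanging `x` and `x'`.
The edges are the triples `b p q` with `p ∈ P_b`, `q ∈ Q_b`, except that `b x x'` is an edge for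
`b = 0` and `b = 3` only, and moreover the triples `{i, i+1, x}` (`i` even) and `{i, i+1, x'}`
(`i` odd) for `i + 1 < n`.
-/

namespace Pool.Agent.Results.MP_295a7b_co.NineTwentyEight

open Finset

/-- `E` is (the edge set of) a `3`-graph on the vertex set `V`. -/
def IsThreeGraph {V : Type} (E : Finset (Finset V)) : Prop := ∀ e ∈ E, e.card = 3

/-- `E` contains a copy of `K_3(3,3,3)`, with parts `A`, `B`, `C`, together with one further
edge all of whose vertices lie in `A ∪ B ∪ C`. -/
def ContainsK333Plus {V : Type} [DecidableEq V] (E : Finset (Finset V)) : Prop :=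
  ∃ A B C : Finset V, A.card = 3 ∧ B.card = 3 ∧ C.card = 3 ∧
    Disjoint A B ∧ Disjoint A C ∧ Disjoint B C ∧
    (∀ a ∈ A, ∀ b ∈ B, ∀ c ∈ C, ({a, b, c} : Finset V) ∈ E) ∧
    ∃ e ∈ E, e ⊆ A ∪ B ∪ C ∧ ∀ a ∈ A, ∀ b ∈ B, ∀ c ∈ C, e ≠ {a, b, c}

section construction

variable {n : ℕ} [NeZero n]

/-- The vertex set of the construction. -/
abbrev Vx (n : ℕ) : Type := Fin n ⊕ (Bool × Fin n)

/-- Interchange `(true, 0)` and `(false, 0)` when `b` is odd. -/
def sw (b : Fin n) (s : Bool) (j : Fin n) : Bool × Fin n :=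
  if j = 0 ∧ b.val % 2 = 1 then (!s, j) else (s, j)

/-- The edges with one vertex in `B`. -/
def e1 (t : Fin n × Fin n × Fin n) : Finset (Vx n) :=
  {Sum.inl t.1, Sum.inr (sw t.1 true t.2.1), Sum.inr (sw t.1 false t.2.2)}

/-- Index set of the edges with one vertex in `B`. -/
def T1 (n : ℕ) [NeZero n] : Finset (Fin n × Fin n × Fin n) :=
  univ.filter (fun t => ¬ (t.2.1 = 0 ∧ t.2.2 = 0) ∨ t.1.val = 0 ∨ t.1.val = 3)

/-- Successor. -/
def nx (i : Fin n) : Fin n := if h : i.val + 1 < n then ⟨i.val + 1, h⟩ else i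

/-- The edges with two vertices in `B`. -/
def e2 (i : Fin n) : Finset (Vx n) :=
  {Sum.inl i, Sum.inl (nx i), Sum.inr (decide (i.val % 2 = 1), 0)}

/-- Index set of the edges with two vertices in `B`. -/
def T2 (n : ℕ) : Finset (Fin n) := univ.filter (fun i => i.val + 1 < n)

/-- The `3`-graph. -/
def EE (n : ℕ) [NeZero n] : Finset (Finset (Vx n)) := (T1 n).image e1 ∪ (T2 n).image e2

lemma sw_snd (b : Fin n) (s : Bool) (j : Fin n) : (sw b s j).2 = j := by
  unfold sw; split_ifs <;> rfl

lemma sw_ne (b : Fin n) (j k : Fin n) : sw b true j ≠ sw b false k := by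
  intro h
  have h2 : j = k := by rw [← sw_snd b true j, h, sw_snd]
  subst h2
  unfold sw at h
  split_ifs at h <;> simp at h

lemma sw_inj (b : Fin n) (s : Bool) {j k : Fin n} (h : sw b s j = sw b s k) : j = k := by
  rw [← sw_snd b s j, h, sw_snd]

lemma e1_inj : Function.Injective (e1 (n := n)) := by
  rintro ⟨b, j, k⟩ ⟨b', j', k'⟩ h
  have hb : b = b' := by
    have : (Sum.inl b : Vx n) ∈ e1 (b', j', k') := by
      rw [← h]; simp [e1]
    simpa [e1] using this
  subst hb
  have hj : j = j' := by
    have : (Sum.inr (sw b true j) : Vx n) ∈ e1 (b, j', k') := by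
      rw [← h]; simp [e1]
    simp only [e1, mem_insert, mem_singleton, reduceCtorEq, false_or, Sum.inr.injEq] at this
    rcases this with h1 | h1
    · exact sw_inj b true h1
    · exact absurd h1 (sw_ne b j k')
  have hk : k = k' := by
    have : (Sum.inr (sw b false k) : Vx n) ∈ e1 (b, j', k') := by
      rw [← h]; simp [e1]
    simp only [e1, mem_insert, mem_singleton, reduceCtorEq, false_or, Sum.inr.injEq] at this
    rcases this with h1 | h1
    · exact absurd h1.symm (sw_ne b j' k)
    · exact sw_inj b false h1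
  rw [hj, hk]

lemma e1_card (t : Fin n × Fin n × Fin n) : (e1 t).card = 3 := by
  unfold e1
  rw [card_eq_three]
  refine ⟨_, _, _, ?_, ?_, ?_, rfl⟩
  · simp
  · simp
  · simpa using sw_ne t.1 t.2.1 t.2.2

omit [NeZero n] in
lemma nx_val {i : Fin n} (h : i.val + 1 < n) : (nx i).val = i.val + 1 := by
  unfold nx; rw [dif_pos h]

lemma e2_card {i : Fin n} (h : i.val + 1 < n) : (e2 i).card = 3 := by
  unfold e2
  rw [card_eq_three]
  refine ⟨_, _, _, ?_, ?_, ?_, rfl⟩
  · intro h1
    have h2 : i = nx i := by simpa using h1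
    have h3 := nx_val h
    rw [← h2] at h3
    omega
  · simp
  · simp

lemma e2_injOn : Set.InjOn (e2 (n := n)) (T2 n : Set (Fin n)) := by
  intro i hi i' hi' h
  have hi1 : i.val + 1 < n := by simpa [T2] using hi
  have hi1' : i'.val + 1 < n := by simpa [T2] using hi'
  have h1 : (Sum.inl i : Vx n) ∈ e2 i' := by rw [← h]; simp [e2]
  have h2 : (Sum.inl i' : Vx n) ∈ e2 i := by rw [h]; simp [e2]
  simp only [e2, mem_insert, mem_singleton, reduceCtorEq, or_false, Sum.inl.injEq] at h1 h2
  rcases h1 with h1 | h1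
  · exact h1
  · rcases h2 with h2 | h2
    · exact h2.symm
    · have a := congrArg Fin.val h1
      have b := congrArg Fin.val h2
      rw [nx_val hi1'] at a
      rw [nx_val hi1] at b
      omega

lemma disj : Disjoint ((T1 n).image e1) ((T2 n).image e2) := by
  rw [Finset.disjoint_left]
  intro e he1 he2
  rw [mem_image] at he1 he2
  obtain ⟨t, -, rfl⟩ := he1
  obtain ⟨i, hi, h⟩ := he2
  have hi1 : i.val + 1 < n := by simpa [T2] using hi
  have h1 : (Sum.inl i : Vx n) ∈ e1 t := by rw [← h]; simp [e2]
  have h2 : (Sum.inl (nx i) : Vx n) ∈ e1 t := by rw [← h]; simp [e2]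
  simp only [e1, mem_insert, mem_singleton, reduceCtorEq, or_false, Sum.inl.injEq] at h1 h2
  have := nx_val hi1
  rw [h2, ← h1] at this
  omega

omit [NeZero n] in
lemma T2_card (hn : 1 ≤ n) : (T2 n).card = n - 1 := by
  have h : T2 n = univ.erase (⟨n - 1, by omega⟩ : Fin n) := by
    ext i
    simp only [T2, mem_filter, mem_univ, true_and, mem_erase, and_true, ne_eq, Fin.ext_iff]
    omega
  rw [h, card_erase_of_mem (mem_univ _), card_univ, Fintype.card_fin]

lemma T1_card (hn : 4 ≤ n) : (T1 n).card + (n - 2) = n ^ 3 := by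
  have h1 := card_filter_add_card_filter_not (s := (univ : Finset (Fin n × Fin n × Fin n)))
    (fun t => ¬ (t.2.1 = 0 ∧ t.2.2 = 0) ∨ t.1.val = 0 ∨ t.1.val = 3)
  have h2 : (univ : Finset (Fin n × Fin n × Fin n)).card = n ^ 3 := by
    rw [card_univ, Fintype.card_prod, Fintype.card_prod, Fintype.card_fin]; ring
  have h3 : (univ.filter (fun t : Fin n × Fin n × Fin n =>
      ¬ (¬ (t.2.1 = 0 ∧ t.2.2 = 0) ∨ t.1.val = 0 ∨ t.1.val = 3))).card = n - 2 := by
    have h4 : (univ.filter (fun t : Fin n × Fin n × Fin n =>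
      ¬ (¬ (t.2.1 = 0 ∧ t.2.2 = 0) ∨ t.1.val = 0 ∨ t.1.val = 3))) =
      ((univ.erase (⟨0, by omega⟩ : Fin n)).erase (⟨3, by omega⟩ : Fin n)).image
        (fun b => (b, ((0 : Fin n), (0 : Fin n)))) := by
      ext ⟨b, j, k⟩
      simp only [mem_filter, mem_univ, true_and, mem_image, mem_erase, and_true, Prod.mk.injEq,
        ne_eq, Fin.ext_iff, not_or, not_not]
      constructor
      · rintro ⟨⟨hj, hk⟩, hb0, hb3⟩
        exact ⟨b, ⟨hb3, hb0⟩, rfl, hj.symm, hk.symm⟩
      · rintro ⟨a, ⟨ha3, ha0⟩, hab, hj, hk⟩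
        exact ⟨⟨hj.symm, hk.symm⟩, by omega, by omega⟩
    rw [h4, card_image_of_injective, card_erase_of_mem, card_erase_of_mem (mem_univ _), card_univ,
      Fintype.card_fin]
    · omega
    · simp [Fin.ext_iff]
    · intro a b hab
      exact (Prod.mk.injEq _ _ _ _ ▸ hab).1
  unfold T1
  omega

lemma EE_card (hn : 4 ≤ n) : (EE n).card = n ^ 3 + 1 := by
  unfold EE
  rw [card_union_of_disjoint disj, card_image_of_injective _ e1_inj,
    card_image_of_injOn e2_injOn, T2_card (by omega)]
  have := T1_card hn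
  omega

lemma EE_three : IsThreeGraph (EE n) := by
  intro e he
  unfold EE at he
  rw [mem_union, mem_image, mem_image] at he
  rcases he with ⟨t, -, rfl⟩ | ⟨i, hi, rfl⟩
  · exact e1_card t
  · exact e2_card (by simpa [T2] using hi)

/-! ### Nine vertices span at most 27 edges -/

/-- The vertices of `S` in `B`. -/
def BS (S : Finset (Vx n)) : Finset (Fin n) := univ.filter (fun b => (Sum.inl b : Vx n) ∈ S)

/-- The nonspecial vertices of `S` in `P` or `Q`. -/
def WS (S : Finset (Vx n)) (s : Bool) : Finset (Fin n) :=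
  univ.filter (fun j => j ≠ 0 ∧ (Sum.inr (s, j) : Vx n) ∈ S)

lemma slice_card (S : Finset (Vx n)) (s : Bool) (f : Fin n → Bool × Fin n)
    (hf : ∀ j, j ≠ 0 → f j = (s, j)) :
    (univ.filter (fun j => (Sum.inr (f j) : Vx n) ∈ S)).card =
      (WS S s).card + if (Sum.inr (f 0) : Vx n) ∈ S then 1 else 0 := by
  by_cases h0 : (Sum.inr (f 0) : Vx n) ∈ S
  · rw [if_pos h0]
    have h1 : univ.filter (fun j => (Sum.inr (f j) : Vx n) ∈ S) = insert 0 (WS S s) := by
      ext j
      simp only [mem_filter, mem_univ, true_and, mem_insert, WS]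
      by_cases hj : j = 0
      · subst hj; simp [h0]
      · simp [hj, hf j hj]
    rw [h1, card_insert_of_notMem]
    simp [WS]
  · rw [if_neg h0, add_zero]
    congr 1
    ext j
    simp only [mem_filter, mem_univ, true_and, WS]
    by_cases hj : j = 0
    · subst hj; simp [h0]
    · simp [hj, hf j hj]

lemma card_S (S : Finset (Vx n)) :
    S.card = (BS S).card + ((WS S true).card + (if (Sum.inr (true, 0) : Vx n) ∈ S then 1 else 0))
      + ((WS S false).card + (if (Sum.inr (false, 0) : Vx n) ∈ S then 1 else 0)) := by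
  have h : S.card = ∑ v : Vx n, if v ∈ S then 1 else 0 := by
    rw [Finset.sum_boole]; simp
  have h2 : ∀ s : Bool, (∑ j : Fin n, if (Sum.inr (s, j) : Vx n) ∈ S then 1 else 0) =
      (WS S s).card + (if (Sum.inr (s, 0) : Vx n) ∈ S then 1 else 0) := by
    intro s
    rw [← slice_card S s (fun j => (s, j)) (fun _ _ => rfl), card_filter]
  rw [h, Fintype.sum_sum_type, Fintype.sum_prod_type, Fintype.sum_bool, h2, h2, ← card_filter]
  unfold BS
  ring

lemma sw_of_ne (b : Fin n) (s : Bool) (j : Fin n) (hj : j ≠ 0) : sw b s j = (s, j) := by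
  unfold sw; rw [if_neg]; tauto

lemma sw_even {b : Fin n} (hb : ¬ b.val % 2 = 1) (s : Bool) (j : Fin n) : sw b s j = (s, j) := by
  unfold sw; rw [if_neg]; tauto

lemma sw_odd {b : Fin n} (hb : b.val % 2 = 1) (s : Bool) : sw b s 0 = (!s, 0) := by
  unfold sw; rw [if_pos ⟨rfl, hb⟩]

/-- The possible first indices. -/
def JS (S : Finset (Vx n)) (b : Fin n) : Finset (Fin n) :=
  univ.filter (fun j => (Sum.inr (sw b true j) : Vx n) ∈ S)

/-- The possible second indices. -/
def KS (S : Finset (Vx n)) (b : Fin n) : Finset (Fin n) :=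
  univ.filter (fun j => (Sum.inr (sw b false j) : Vx n) ∈ S)

/-- Indices of edges of the first kind inside `S`. -/
def T1S (S : Finset (Vx n)) : Finset (Fin n × Fin n × Fin n) := (T1 n).filter (fun t => e1 t ⊆ S)

/-- Indices of edges of the second kind inside `S`. -/
def T2S (S : Finset (Vx n)) : Finset (Fin n) := (T2 n).filter (fun i => e2 i ⊆ S)

lemma e1_sub {S : Finset (Vx n)} {t : Fin n × Fin n × Fin n} (h : e1 t ⊆ S) :
    t.1 ∈ BS S ∧ t.2.1 ∈ JS S t.1 ∧ t.2.2 ∈ KS S t.1 := by
  unfold e1 at h
  simp only [insert_subset_iff, singleton_subset_iff] at h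
  simp only [BS, JS, KS, mem_filter, mem_univ, true_and]
  exact h

lemma fiber_le (S : Finset (Vx n)) (b : Fin n) :
    ((T1S S).filter (fun t => t.1 = b)).card ≤ (JS S b).card * (KS S b).card := by
  rw [← card_product]
  apply card_le_card_of_injOn (fun t => t.2)
  · intro t ht
    simp only [T1S, coe_filter, mem_filter, Set.mem_ofPred_eq] at ht
    obtain ⟨⟨-, h1⟩, rfl⟩ := ht
    have := e1_sub h1
    simp only [coe_product, Set.mem_prod, mem_coe]
    exact this.2
  · intro t ht t' ht' h
    simp only [coe_filter, Set.mem_ofPred_eq] at ht ht'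
    exact Prod.ext (ht.2.trans ht'.2.symm) h

lemma fiber_le' (S : Finset (Vx n)) (b : Fin n) (hb : ¬ (b.val = 0 ∨ b.val = 3))
    (h0 : (0 : Fin n) ∈ JS S b) (h0' : (0 : Fin n) ∈ KS S b) :
    ((T1S S).filter (fun t => t.1 = b)).card + 1 ≤ (JS S b).card * (KS S b).card := by
  rw [← card_product]
  have hm : ((0 : Fin n), (0 : Fin n)) ∈ JS S b ×ˢ KS S b := by
    rw [mem_product]; exact ⟨h0, h0'⟩
  rw [← card_erase_add_one hm]
  apply Nat.add_le_add_right
  apply card_le_card_of_injOn (fun t => t.2)
  · intro t ht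
    simp only [T1S, T1, coe_filter, mem_filter, Set.mem_ofPred_eq, mem_univ, true_and] at ht
    obtain ⟨⟨h2, h1⟩, rfl⟩ := ht
    have := e1_sub h1
    simp only [coe_erase, coe_product, Set.mem_sdiff, Set.mem_prod, mem_coe,
      Set.mem_singleton_iff]
    refine ⟨this.2, ?_⟩
    intro h3
    rcases h2 with h2 | h2
    · apply h2
      rw [h3]
      exact ⟨rfl, rfl⟩
    · exact hb h2
  · intro t ht t' ht' h
    simp only [coe_filter, Set.mem_ofPred_eq] at ht ht'
    exact Prod.ext (ht.2.trans ht'.2.symm) h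

lemma T1S_card (S : Finset (Vx n)) :
    (T1S S).card = ∑ b ∈ BS S, ((T1S S).filter (fun t => t.1 = b)).card := by
  apply card_eq_sum_card_fiberwise
  intro t ht
  simp only [T1S, coe_filter, Set.mem_ofPred_eq] at ht
  exact (e1_sub ht.2).1

lemma JS_card_even (S : Finset (Vx n)) {b : Fin n} (hb : ¬ b.val % 2 = 1) :
    (JS S b).card = (WS S true).card + if (Sum.inr (true, 0) : Vx n) ∈ S then 1 else 0 := by
  unfold JS
  rw [slice_card S true (fun j => sw b true j) (fun j hj => sw_of_ne b true j hj), sw_even hb]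

lemma KS_card_even (S : Finset (Vx n)) {b : Fin n} (hb : ¬ b.val % 2 = 1) :
    (KS S b).card = (WS S false).card + if (Sum.inr (false, 0) : Vx n) ∈ S then 1 else 0 := by
  unfold KS
  rw [slice_card S false (fun j => sw b false j) (fun j hj => sw_of_ne b false j hj), sw_even hb]

lemma JS_card_odd (S : Finset (Vx n)) {b : Fin n} (hb : b.val % 2 = 1) :
    (JS S b).card = (WS S true).card + if (Sum.inr (false, 0) : Vx n) ∈ S then 1 else 0 := by
  unfold JS
  rw [slice_card S true (fun j => sw b true j) (fun j hj => sw_of_ne b true j hj), sw_odd hb]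
  rfl

lemma KS_card_odd (S : Finset (Vx n)) {b : Fin n} (hb : b.val % 2 = 1) :
    (KS S b).card = (WS S false).card + if (Sum.inr (true, 0) : Vx n) ∈ S then 1 else 0 := by
  unfold KS
  rw [slice_card S false (fun j => sw b false j) (fun j hj => sw_of_ne b false j hj), sw_odd hb]
  rfl

lemma e2_sub {S : Finset (Vx n)} {i : Fin n} (h : e2 i ⊆ S) :
    i ∈ BS S ∧ nx i ∈ BS S ∧ (Sum.inr (decide (i.val % 2 = 1), 0) : Vx n) ∈ S := by
  unfold e2 at h
  simp only [insert_subset_iff, singleton_subset_iff] at h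
  simp only [BS, mem_filter, mem_univ, true_and]
  exact h

omit [NeZero n] in
lemma sum_parity (s : Finset (Fin n)) (c₁ c₂ : ℕ) :
    ∑ b ∈ s, (if b.val % 2 = 1 then c₂ else c₁) =
      (s.filter (fun b => b.val % 2 = 1)).card * c₂
        + (s.filter (fun b => ¬ b.val % 2 = 1)).card * c₁ := by
  rw [sum_ite, sum_const, sum_const, smul_eq_mul, smul_eq_mul]

omit [NeZero n] in
lemma nx_injOn (s : Finset (Fin n)) (hs : ∀ i ∈ s, i.val + 1 < n) :
    Set.InjOn (nx (n := n)) (s : Set (Fin n)) := by
  intro i hi j hj h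
  have a := nx_val (hs i hi)
  have b := nx_val (hs j hj)
  rw [h] at a
  ext
  omega

lemma arith0 (p q b : ℕ) (h : p + q + b = 9) : b * (p * q) ≤ 27 := by
  have key : ∀ p < 10, ∀ q < 10, (9 - p - q) * (p * q) ≤ 27 := by decide
  have h1 : b = 9 - p - q := by omega
  rw [h1]
  exact key p (by omega) q (by omega)

lemma arith1 (p q b₁ b₂ : ℕ) (h : p + q + b₁ + b₂ = 8) :
    b₂ * ((p + 1) * q) + b₁ * (p * (q + 1)) + min b₁ b₂ ≤ 27 := by
  have key : ∀ p < 9, ∀ q < 9, ∀ b₁ < 9, p + q + b₁ ≤ 8 →
      (8 - p - q - b₁) * ((p + 1) * q) + b₁ * (p * (q + 1)) + min b₁ (8 - p - q - b₁) ≤ 27 := by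
    decide
  have h1 : b₂ = 8 - p - q - b₁ := by omega
  rw [h1]
  exact key p (by omega) q (by omega) b₁ (by omega) (by omega)

lemma arith2 (p q b : ℕ) (h : p + q + b = 7) (hb : b ≠ 3) :
    b * (p * q + p + q) + 2 + b ≤ 27 := by
  have key : ∀ p < 8, ∀ q < 8, 7 - p - q ≠ 3 →
      (7 - p - q) * (p * q + p + q) + 2 + (7 - p - q) ≤ 27 := by decide
  have h1 : b = 7 - p - q := by omega
  rw [h1] at hb ⊢
  exact key p (by omega) q (by omega) hb

lemma arith3 (p q : ℕ) (h : p + q = 4) : 3 * (p * q + p + q) + 3 ≤ 27 := by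
  have key : ∀ p < 5, 3 * (p * (4 - p) + p + (4 - p)) + 3 ≤ 27 := by decide
  have h1 : q = 4 - p := by omega
  rw [h1]
  exact key p (by omega)

omit [NeZero n] in
lemma special (s t : Finset (Fin n)) (hs : s.card = 3)
    (ht : ∀ i ∈ t, i ∈ s ∧ i.val + 1 < n ∧ nx i ∈ s) :
    t.card + (s.filter (fun b => b.val = 0 ∨ b.val = 3)).card ≤ 3 := by
  obtain ⟨x, y, z, hxy, hxz, hyz, rfl⟩ := card_eq_three.mp hs
  have h1 : t ⊆ ({x, y, z} : Finset (Fin n)).filter
      (fun i => i.val + 1 = x.val ∨ i.val + 1 = y.val ∨ i.val + 1 = z.val) := by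
    intro i hi
    obtain ⟨h1, h2, h3⟩ := ht i hi
    rw [mem_filter]
    refine ⟨h1, ?_⟩
    rw [← nx_val h2]
    simp only [mem_insert, mem_singleton] at h3
    rcases h3 with h3 | h3 | h3 <;> rw [h3] <;> simp
  have h2 := card_le_card h1
  refine le_trans (Nat.add_le_add_right h2 _) ?_
  rw [card_filter, card_filter]
  have e1 : x ∉ ({y, z} : Finset (Fin n)) := by simp [hxy, hxz]
  have e2 : y ∉ ({z} : Finset (Fin n)) := by simp [hyz]
  rw [sum_insert e1, sum_insert e2, sum_singleton, sum_insert e1, sum_insert e2, sum_singleton]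
  have hxy' : x.val ≠ y.val := fun h => hxy (Fin.ext h)
  have hxz' : x.val ≠ z.val := fun h => hxz (Fin.ext h)
  have hyz' : y.val ≠ z.val := fun h => hyz (Fin.ext h)
  split_ifs <;> omega

lemma main_bound (S : Finset (Vx n)) (hS : S.card = 9) :
    (T1S S).card + (T2S S).card ≤ 27 := by
  have hc := card_S S
  rw [hS] at hc
  have hsplit : ((BS S).filter (fun b => b.val % 2 = 1)).card
      + ((BS S).filter (fun b => ¬ b.val % 2 = 1)).card = (BS S).card :=
    card_filter_add_card_filter_not _
  have hT2 : ∀ i ∈ T2S S, i ∈ BS S ∧ nx i ∈ BS S ∧ i.val + 1 < n ∧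
      (Sum.inr (decide (i.val % 2 = 1), 0) : Vx n) ∈ S := by
    intro i hi
    simp only [T2S, T2, mem_filter, mem_univ, true_and] at hi
    have := e2_sub hi.2
    exact ⟨this.1, this.2.1, hi.1, this.2.2⟩
  have hT2n : ∀ i ∈ T2S S, i.val + 1 < n := fun i hi => (hT2 i hi).2.2.1
  have hinj := nx_injOn (T2S S) hT2n
  by_cases hx' : (Sum.inr (true, 0) : Vx n) ∈ S <;> by_cases hx : (Sum.inr (false, 0) : Vx n) ∈ S
  · -- both special vertices
    rw [if_pos hx', if_pos hx] at hc
    have hT1 : (T1S S).card ≤ (BS S).card * ((WS S true).card * (WS S false).card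
        + (WS S true).card + (WS S false).card)
        + ((BS S).filter (fun b => b.val = 0 ∨ b.val = 3)).card := by
      rw [T1S_card, card_filter, ← smul_eq_mul, ← sum_const, ← sum_add_distrib]
      apply sum_le_sum
      intro b _
      have hJ : (JS S b).card = (WS S true).card + 1 := by
        by_cases hb : b.val % 2 = 1
        · rw [JS_card_odd S hb, if_pos hx]
        · rw [JS_card_even S hb, if_pos hx']
      have hK : (KS S b).card = (WS S false).card + 1 := by
        by_cases hb : b.val % 2 = 1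
        · rw [KS_card_odd S hb, if_pos hx']
        · rw [KS_card_even S hb, if_pos hx]
      by_cases hb : b.val = 0 ∨ b.val = 3
      · rw [if_pos hb]
        refine (fiber_le S b).trans (le_of_eq ?_)
        rw [hJ, hK]; ring
      · rw [if_neg hb, add_zero]
        have h0 : (0 : Fin n) ∈ JS S b := by
          simp only [JS, mem_filter, mem_univ, true_and]
          by_cases hb : b.val % 2 = 1
          · rw [sw_odd hb]; exact hx
          · rw [sw_even hb]; exact hx'
        have h0' : (0 : Fin n) ∈ KS S b := by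
          simp only [KS, mem_filter, mem_univ, true_and]
          by_cases hb : b.val % 2 = 1
          · rw [sw_odd hb]; exact hx'
          · rw [sw_even hb]; exact hx
        have := fiber_le' S b hb h0 h0'
        rw [hJ, hK] at this
        have e : ((WS S true).card + 1) * ((WS S false).card + 1) =
          (WS S true).card * (WS S false).card + (WS S true).card + (WS S false).card + 1 := by ring
        omega
    by_cases h3 : (BS S).card = 3
    · have h4 := special (BS S) (T2S S) h3 (fun i hi => ⟨(hT2 i hi).1, (hT2 i hi).2.2.1,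
        (hT2 i hi).2.1⟩)
      have h5 := arith3 (WS S true).card (WS S false).card (by omega)
      rw [h3] at hT1
      omega
    · have h4 : (T2S S).card ≤ (BS S).card := card_le_card (fun i hi => (hT2 i hi).1)
      have h5 : ((BS S).filter (fun b => b.val = 0 ∨ b.val = 3)).card ≤ 2 := by
        have : ((BS S).filter (fun b => b.val = 0 ∨ b.val = 3)).card
            ≤ (({0, 3} : Finset ℕ)).card := by
          apply card_le_card_of_injOn (fun b => b.val)
          · intro b hb
            simp only [coe_filter, Set.mem_ofPred_eq] at hb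
            simpa using hb.2
          · intro a _ b _ h
            exact Fin.ext h
        simpa using this
      have h6 := arith2 (WS S true).card (WS S false).card (BS S).card (by omega) h3
      omega
  · -- only `(true, 0)`
    rw [if_pos hx', if_neg hx] at hc
    have hT1 : (T1S S).card ≤ ((BS S).filter (fun b => b.val % 2 = 1)).card *
        ((WS S true).card * ((WS S false).card + 1))
        + ((BS S).filter (fun b => ¬ b.val % 2 = 1)).card *
          (((WS S true).card + 1) * (WS S false).card) := by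
      rw [T1S_card, ← sum_parity]
      apply sum_le_sum
      intro b _
      refine (fiber_le S b).trans (le_of_eq ?_)
      by_cases hb : b.val % 2 = 1
      · rw [if_pos hb, JS_card_odd S hb, KS_card_odd S hb, if_neg hx, if_pos hx', add_zero]
      · rw [if_neg hb, JS_card_even S hb, KS_card_even S hb, if_neg hx, if_pos hx', add_zero]
    have hodd : ∀ i ∈ T2S S, i.val % 2 = 1 := by
      intro i hi
      by_contra h
      have h1 := (hT2 i hi).2.2.2
      rw [decide_eq_false h] at h1
      exact hx h1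
    have h1 : (T2S S).card ≤ ((BS S).filter (fun b => b.val % 2 = 1)).card := by
      apply card_le_card
      intro i hi
      rw [mem_filter]
      exact ⟨(hT2 i hi).1, hodd i hi⟩
    have h2 : (T2S S).card ≤ ((BS S).filter (fun b => ¬ b.val % 2 = 1)).card := by
      apply card_le_card_of_injOn nx _ hinj
      intro i hi
      rw [mem_coe, mem_filter]
      refine ⟨(hT2 i hi).2.1, ?_⟩
      rw [nx_val (hT2n i hi)]
      have := hodd i hi
      omega
    have h3 := arith1 (WS S true).card (WS S false).card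
      ((BS S).filter (fun b => b.val % 2 = 1)).card
      ((BS S).filter (fun b => ¬ b.val % 2 = 1)).card (by omega)
    have h4 : (T2S S).card ≤ min ((BS S).filter (fun b => b.val % 2 = 1)).card
      ((BS S).filter (fun b => ¬ b.val % 2 = 1)).card := le_min h1 h2
    linarith
  · -- only `(false, 0)`
    rw [if_neg hx', if_pos hx] at hc
    have hT1 : (T1S S).card ≤ ((BS S).filter (fun b => b.val % 2 = 1)).card *
        (((WS S true).card + 1) * (WS S false).card)
        + ((BS S).filter (fun b => ¬ b.val % 2 = 1)).card *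
          ((WS S true).card * ((WS S false).card + 1)) := by
      rw [T1S_card, ← sum_parity]
      apply sum_le_sum
      intro b _
      refine (fiber_le S b).trans (le_of_eq ?_)
      by_cases hb : b.val % 2 = 1
      · rw [if_pos hb, JS_card_odd S hb, KS_card_odd S hb, if_pos hx, if_neg hx', add_zero]
      · rw [if_neg hb, JS_card_even S hb, KS_card_even S hb, if_pos hx, if_neg hx', add_zero]
    have heven : ∀ i ∈ T2S S, ¬ i.val % 2 = 1 := by
      intro i hi h
      have h1 := (hT2 i hi).2.2.2
      rw [decide_eq_true h] at h1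
      exact hx' h1
    have h1 : (T2S S).card ≤ ((BS S).filter (fun b => ¬ b.val % 2 = 1)).card := by
      apply card_le_card
      intro i hi
      rw [mem_filter]
      exact ⟨(hT2 i hi).1, heven i hi⟩
    have h2 : (T2S S).card ≤ ((BS S).filter (fun b => b.val % 2 = 1)).card := by
      apply card_le_card_of_injOn nx _ hinj
      intro i hi
      rw [mem_coe, mem_filter]
      refine ⟨(hT2 i hi).2.1, ?_⟩
      rw [nx_val (hT2n i hi)]
      have := heven i hi
      omega
    have h3 := arith1 (WS S true).card (WS S false).card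
      ((BS S).filter (fun b => ¬ b.val % 2 = 1)).card
      ((BS S).filter (fun b => b.val % 2 = 1)).card (by omega)
    have h4 : (T2S S).card ≤ min ((BS S).filter (fun b => ¬ b.val % 2 = 1)).card
      ((BS S).filter (fun b => b.val % 2 = 1)).card := le_min h1 h2
    linarith
  · -- neither
    rw [if_neg hx', if_neg hx] at hc
    have hT1 : (T1S S).card ≤ (BS S).card * ((WS S true).card * (WS S false).card) := by
      rw [T1S_card, ← smul_eq_mul, ← sum_const]
      apply sum_le_sum
      intro b _
      refine (fiber_le S b).trans (le_of_eq ?_)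
      by_cases hb : b.val % 2 = 1
      · rw [JS_card_odd S hb, KS_card_odd S hb, if_neg hx, if_neg hx', add_zero, add_zero]
      · rw [JS_card_even S hb, KS_card_even S hb, if_neg hx, if_neg hx', add_zero, add_zero]
    have h0 : T2S S = ∅ := by
      rw [eq_empty_iff_forall_notMem]
      intro i hi
      have h1 := (hT2 i hi).2.2.2
      by_cases h : i.val % 2 = 1
      · rw [decide_eq_true h] at h1
        exact hx' h1
      · rw [decide_eq_false h] at h1
        exact hx h1
    have h3 := arith0 (WS S true).card (WS S false).card (BS S).card (by omega)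
    rw [h0, card_empty, add_zero]
    exact hT1.trans h3

lemma EE_span (S : Finset (Vx n)) (hS : S.card = 9) :
    ((EE n).filter (fun e => e ⊆ S)).card ≤ 27 := by
  refine le_trans ?_ (main_bound S hS)
  unfold EE T1S T2S
  rw [filter_union, filter_image, filter_image]
  exact (card_union_le _ _).trans (Nat.add_le_add card_image_le card_image_le)

end construction

/-! ### Transfer and the theorem -/

lemma triple_inj {V : Type} [DecidableEq V] {A B C : Finset V} (hAB : Disjoint A B)
    (hAC : Disjoint A C) (hBC : Disjoint B C) {a a' b b' c c' : V}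
    (ha : a ∈ A) (hb : b ∈ B) (hc : c ∈ C) (ha' : a' ∈ A) (hb' : b' ∈ B) (hc' : c' ∈ C)
    (h : ({a, b, c} : Finset V) = {a', b', c'}) : a = a' ∧ b = b' ∧ c = c' := by
  have nAB : ∀ {x y : V}, x ∈ A → y ∈ B → x ≠ y := fun hx hy h =>
    (Finset.disjoint_left.mp hAB hx) (h ▸ hy)
  have nAC : ∀ {x y : V}, x ∈ A → y ∈ C → x ≠ y := fun hx hy h =>
    (Finset.disjoint_left.mp hAC hx) (h ▸ hy)
  have nBC : ∀ {x y : V}, x ∈ B → y ∈ C → x ≠ y := fun hx hy h =>
    (Finset.disjoint_left.mp hBC hx) (h ▸ hy)
  have h1 : a ∈ ({a', b', c'} : Finset V) := by rw [← h]; simp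
  have h2 : b ∈ ({a', b', c'} : Finset V) := by rw [← h]; simp
  have h3 : c ∈ ({a', b', c'} : Finset V) := by rw [← h]; simp
  simp only [mem_insert, mem_singleton] at h1 h2 h3
  refine ⟨?_, ?_, ?_⟩
  · rcases h1 with h1 | h1 | h1
    · exact h1
    · exact absurd h1 (nAB ha hb')
    · exact absurd h1 (nAC ha hc')
  · rcases h2 with h2 | h2 | h2
    · exact absurd h2.symm (nAB ha' hb)
    · exact h2
    · exact absurd h2 (nBC hb hc')
  · rcases h3 with h3 | h3 | h3
    · exact absurd h3.symm (nAC ha' hc)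
    · exact absurd h3.symm (nBC hb' hc)
    · exact h3

lemma contains_span {V : Type} [DecidableEq V] {E : Finset (Finset V)}
    (h : ContainsK333Plus E) :
    ∃ S : Finset V, S.card = 9 ∧ 28 ≤ (E.filter (fun e => e ⊆ S)).card := by
  obtain ⟨A, B, C, hA, hB, hC, hAB, hAC, hBC, hall, e, he, heS, hne⟩ := h
  refine ⟨A ∪ B ∪ C, ?_, ?_⟩
  · rw [card_union_of_disjoint (Finset.disjoint_union_left.mpr ⟨hAC, hBC⟩),
      card_union_of_disjoint hAB, hA, hB, hC]
  · have hcard : ((A ×ˢ B ×ˢ C).image
        (fun t : V × V × V => ({t.1, t.2.1, t.2.2} : Finset V))).card = 27 := by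
      rw [card_image_of_injOn, card_product, card_product, hA, hB, hC]
      rintro ⟨a, b, c⟩ ht ⟨a', b', c'⟩ ht' heq
      simp only [coe_product, Set.mem_prod, mem_coe] at ht ht'
      obtain ⟨h1, h2, h3⟩ := triple_inj hAB hAC hBC ht.1 ht.2.1 ht.2.2 ht'.1 ht'.2.1 ht'.2.2 heq
      rw [h1, h2, h3]
    have hnot : e ∉ (A ×ˢ B ×ˢ C).image
        (fun t : V × V × V => ({t.1, t.2.1, t.2.2} : Finset V)) := by
      rw [mem_image]
      rintro ⟨⟨a, b, c⟩, ht, heq⟩
      simp only [mem_product] at ht
      exact hne a ht.1 b ht.2.1 c ht.2.2 heq.symm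
    have hins := card_insert_of_notMem hnot
    rw [hcard] at hins
    refine le_trans (le_of_eq hins.symm) (card_le_card ?_)
    intro f hf
    rw [mem_insert, mem_image] at hf
    rw [mem_filter]
    rcases hf with rfl | ⟨⟨a, b, c⟩, ht, rfl⟩
    · exact ⟨he, heS⟩
    · simp only [mem_product] at ht
      refine ⟨hall a ht.1 b ht.2.1 c ht.2.2, ?_⟩
      intro v hv
      simp only [mem_insert, mem_singleton] at hv
      simp only [mem_union]
      rcases hv with rfl | rfl | rfl
      · exact Or.inl (Or.inl ht.1)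
      · exact Or.inl (Or.inr ht.2.1)
      · exact Or.inr ht.2.2

/-- **Theorem.**  For every `n ≥ 4` there is a `3`-graph with `3 n` vertices and `n ^ 3 + 1`
edges in which every nine vertices span at most `27` edges; in particular it contains no
`K_3(3,3,3)` together with one further edge on the same nine vertices. -/
theorem result : ∀ n : ℕ, 4 ≤ n → ∃ E : Finset (Finset (Fin (3 * n))),
    IsThreeGraph E ∧ E.card = n ^ 3 + 1 ∧
    (∀ S : Finset (Fin (3 * n)), S.card = 9 → (E.filter (fun e => e ⊆ S)).card ≤ 27) ∧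
    ¬ ContainsK333Plus E := by
  intro n hn
  have : NeZero n := ⟨by omega⟩
  have hcardV : Fintype.card (Vx n) = 3 * n := by
    rw [Fintype.card_sum, Fintype.card_prod, Fintype.card_fin, Fintype.card_bool]; ring
  let f : Vx n ≃ Fin (3 * n) := Fintype.equivFinOfCardEq hcardV
  have hspan : ∀ S : Finset (Fin (3 * n)), S.card = 9 →
      (((EE n).image (fun e => e.map f.toEmbedding)).filter (fun e => e ⊆ S)).card ≤ 27 := by
    intro S hS
    rw [filter_image]
    refine card_image_le.trans ?_
    refine le_trans (card_le_card ?_) (EE_span (S.map f.symm.toEmbedding) (by rw [card_map, hS]))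
    intro e he
    rw [mem_filter] at he ⊢
    refine ⟨he.1, ?_⟩
    intro v hv
    have h1 : f v ∈ S := he.2 (mem_map_of_mem f.toEmbedding hv)
    rw [mem_map]
    exact ⟨f v, h1, by simp⟩
  refine ⟨(EE n).image (fun e => e.map f.toEmbedding), ?_, ?_, hspan, ?_⟩
  · intro e he
    rw [mem_image] at he
    obtain ⟨e', he', rfl⟩ := he
    rw [card_map]
    exact EE_three e' he'
  · rw [card_image_of_injective _ (Finset.map_injective f.toEmbedding), EE_card hn]
  · intro h
    obtain ⟨S, hS, h28⟩ := contains_span h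
    have := hspan S hS
    omega

end Pool.Agent.Results.MP_295a7b_co.NineTwentyEight
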